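import Mathlib
import Pool.Agent.Lib.MP_ec260d_ntB.IC

/-!
# JOB I/CellsC: `cells` on `[T, C₃ T]` (about 150 lines)

`T_j = (9/8)^j T` for `j ≤ J`, `(9/8)^J ≥ C₃`.  `cells ε₁` with `ε₁ = ε/((J + 1) (9/8)^J 2)` gives `B, T₀`.  For `n ∈ F` let `x = ordinate n`; let `j` be the largest `j ≤ J` with `T_j + B hT T_j ≤ x` (`j = 0` is possible); then `x ≤ 2 T_j + T_j/4`
(if `j < J`: `x < T_{j+1} + B hT T_{j+1} ≤ 9/8 T_j + 1`; if `j = J`: `x ≤ C₃ T ≤ T_J`).  `hT T_j ≤ hT T` (`log T_j ≥ log T`), so there is no `t ∈ G` with `|t - x| ≤ B hT T_j`, `|NN t - n| ≤ B`.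
Apply `cells` at `T_j` to `G ∩ Icc T_j (3 T_j)` and `η_j = η T/T_j ≤ η` (`Icc T_j (3T_j) ⊆ Icc T (3 C₃ T)` if `T_j ≤ C₃ T`; for `j` with `T_j > C₃ T` no `n` is assigned to `j`; so use only `j` with `T_j ≤ C₃ T`).
`T_j/hT T_j = T_j log T_j/(2π) ≤ 2 (9/8)^J T log T/(2π)` for large `T`.  Sum: `≤ (J + 1) (ε₁ + 3η) 2 (9/8)^J (T/hT T)`.
-/

namespace Pool.Agent.Lib.MP_ec260d_ntD

open Complex Set Filter Topology MeasureTheory
open Pool.Agent.Lib.MP_ec260d_ntB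
open Pool.Agent.Lib.MP_ec260d_nt (ordinate)

private theorem CellsC_hT_pos {T : ℝ} (h : 2 ≤ T) : 0 < hT T := by
  unfold hT
  have h1 : 0 < Real.log T := Real.log_pos (by linarith)
  positivity

private theorem CellsC_hT_anti {T T' : ℝ} (h : 2 ≤ T) (h' : T ≤ T') : hT T' ≤ hT T := by
  unfold hT
  have h1 : 0 < Real.log T := Real.log_pos (by linarith)
  have h2 : Real.log T ≤ Real.log T' := Real.log_le_log (by linarith) h'
  have hp := Real.pi_pos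
  exact div_le_div_of_nonneg_left (by positivity) h1 h2

private theorem CellsC_hT_le {T : ℝ} (h : 2 ≤ T) : hT T ≤ 10 := by
  refine (CellsC_hT_anti le_rfl h).trans ?_
  unfold hT
  have h1 : (0.6931471803 : ℝ) < Real.log 2 := Real.log_two_gt_d9
  have h2 : Real.pi < 3.15 := Real.pi_lt_d2
  rw [div_le_iff₀ (by linarith)]
  linarith

private theorem CellsC_quot {T q : ℝ} (h : 2 ≤ T) (hq : 1 ≤ q) {Q : ℝ} (hqQ : q ≤ Q) (hQ : Q ≤ T) :
    q * T / hT (q * T) ≤ 2 * Q * (T / hT T) := by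
  unfold hT
  have h1 : 0 < Real.log T := Real.log_pos (by linarith)
  have h2 : Real.log (q * T) ≤ 2 * Real.log T := by
    rw [Real.log_mul (by linarith) (by linarith)]
    have : Real.log q ≤ Real.log T := Real.log_le_log (by linarith) (hqQ.trans hQ)
    linarith
  have h3 : 0 ≤ Real.log (q * T) := Real.log_nonneg (by nlinarith)
  have hp := Real.pi_pos
  rw [div_div_eq_mul_div, div_div_eq_mul_div, ← mul_div_assoc]
  refine div_le_div_of_nonneg_right ?_ (by positivity)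
  have h4 : q * T * Real.log (q * T) ≤ Q * T * (2 * Real.log T) := by
    refine mul_le_mul ?_ h2 h3 ?_
    · exact mul_le_mul_of_nonneg_right hqQ (by linarith)
    · exact mul_nonneg (by linarith) (by linarith)
  calc q * T * Real.log (q * T) ≤ Q * T * (2 * Real.log T) := h4
    _ = 2 * Q * (T * Real.log T) := by ring

private theorem CellsC_cover {B T C₃ x : ℝ} {J : ℕ} (hB : 1 ≤ B) (hT2 : 2 ≤ T) (hTB : 10 * B ≤ T)
    (hJ : C₃ ≤ (9 / 8 : ℝ) ^ J) (h1 : T + B * hT T ≤ x) (h2 : x ≤ C₃ * T) :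
    ∃ j ∈ Finset.range (J + 1), (9 / 8 : ℝ) ^ j * T + B * hT ((9 / 8 : ℝ) ^ j * T) ≤ x ∧
      x ≤ 2 * ((9 / 8 : ℝ) ^ j * T) + ((9 / 8 : ℝ) ^ j * T) / 4 := by
  have hq : ∀ j : ℕ, 1 ≤ (9 / 8 : ℝ) ^ j := fun j => one_le_pow₀ (by norm_num)
  have hTT : ∀ j : ℕ, T ≤ (9 / 8 : ℝ) ^ j * T := fun j => by
    have := hq j
    nlinarith
  have key : ∀ j : ℕ, ((9 / 8 : ℝ) ^ j * T + B * hT ((9 / 8 : ℝ) ^ j * T) ≤ x) ∨
      ∃ i < j, (9 / 8 : ℝ) ^ i * T + B * hT ((9 / 8 : ℝ) ^ i * T) ≤ x ∧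
        x ≤ 2 * ((9 / 8 : ℝ) ^ i * T) + ((9 / 8 : ℝ) ^ i * T) / 4 := by
    intro j
    induction j with
    | zero =>
      left
      rw [pow_zero, one_mul]
      exact h1
    | succ j ih =>
      rcases ih with ih | ⟨i, hi, h⟩
      · by_cases h3 : (9 / 8 : ℝ) ^ (j + 1) * T + B * hT ((9 / 8 : ℝ) ^ (j + 1) * T) ≤ x
        · exact Or.inl h3
        · right
          refine ⟨j, Nat.lt_succ_self j, ih, ?_⟩
          have h4 := (not_le.1 h3).le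
          have h5 : hT ((9 / 8 : ℝ) ^ (j + 1) * T) ≤ 10 :=
            CellsC_hT_le (hT2.trans (hTT _))
          have h6 : B * hT ((9 / 8 : ℝ) ^ (j + 1) * T) ≤ B * 10 :=
            mul_le_mul_of_nonneg_left h5 (by linarith)
          have h7 := hTT j
          rw [pow_succ] at h4 h6
          nlinarith
      · exact Or.inr ⟨i, Nat.lt_succ_of_lt hi, h⟩
  rcases key J with h | ⟨i, hi, h⟩
  · refine ⟨J, Finset.mem_range.2 (Nat.lt_succ_self J), h, ?_⟩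
    have h3 : x ≤ (9 / 8 : ℝ) ^ J * T := h2.trans (mul_le_mul_of_nonneg_right hJ (by linarith))
    have h4 := hTT J
    linarith
  · exact ⟨i, Finset.mem_range.2 (Nat.lt_succ_of_lt hi), h⟩

theorem cells_C (ε C₃ : ℝ) (hε : 0 < ε) (hC₃ : 1 ≤ C₃) : ∃ B C T₀ : ℝ, 1 ≤ B ∧ 0 ≤ C ∧ 2 ≤ T₀ ∧ ∀ T : ℝ, T₀ ≤ T →
    ∀ (η : ℝ) (G : Set ℝ), 0 ≤ η → MeasurableSet G →
      volume (Icc T (3 * C₃ * T) \ G) ≤ ENNReal.ofReal (η * T) →
      ∀ F : Finset ℕ, (∀ n ∈ F, T + B * hT T ≤ ordinate n ∧ ordinate n ≤ C₃ * T ∧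
          ¬ ∃ t ∈ G, |t - ordinate n| ≤ B * hT T ∧ |NN t - n| ≤ B) →
        (F.card : ℝ) ≤ (ε + C * η) * (T / hT T) := by
  obtain ⟨J, hJ⟩ := pow_unbounded_of_one_lt C₃ (show (1 : ℝ) < 9 / 8 by norm_num)
  have hq1 : 1 ≤ (9 / 8 : ℝ) ^ J := one_le_pow₀ (by norm_num)
  have hq0 : 0 < (9 / 8 : ℝ) ^ J := by positivity
  have hJ0 : (0 : ℝ) < J + 1 := by positivity
  obtain ⟨B, T₁, hB, hT₁, hcells⟩ := cells (ε / ((J + 1) * (9 / 8 : ℝ) ^ J * 2)) (by positivity)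
  refine ⟨B, 6 * (J + 1) * (9 / 8 : ℝ) ^ J, T₁ + 10 * B + (9 / 8 : ℝ) ^ J, hB, by positivity,
    by linarith, ?_⟩
  intro T hT0 η G hη hG hvol F hF
  have hT2 : 2 ≤ T := by linarith
  have hTT : T₁ ≤ T := by linarith
  have hTB : 10 * B ≤ T := by linarith
  have hTq : (9 / 8 : ℝ) ^ J ≤ T := by linarith
  have hh := CellsC_hT_pos hT2
  classical
  let Fj : ℕ → Finset ℕ := fun j => F.filter fun n =>
    (9 / 8 : ℝ) ^ j * T + B * hT ((9 / 8 : ℝ) ^ j * T) ≤ ordinate n ∧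
      ordinate n ≤ 2 * ((9 / 8 : ℝ) ^ j * T) + ((9 / 8 : ℝ) ^ j * T) / 4
  have hcov : F ⊆ (Finset.range (J + 1)).biUnion Fj := by
    intro n hn
    obtain ⟨h1, h2, -⟩ := hF n hn
    obtain ⟨j, hj, h3⟩ := CellsC_cover hB hT2 hTB hJ.le h1 h2
    exact Finset.mem_biUnion.2 ⟨j, hj, Finset.mem_filter.2 ⟨hn, h3⟩⟩
  have hbd : ∀ j ∈ Finset.range (J + 1), ((Fj j).card : ℝ) ≤
      (ε / ((J + 1) * (9 / 8 : ℝ) ^ J * 2) + 3 * η) * (2 * (9 / 8 : ℝ) ^ J * (T / hT T)) := by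
    intro j hj
    have hjJ : j ≤ J := Nat.lt_succ_iff.1 (Finset.mem_range.1 hj)
    have hqj1 : 1 ≤ (9 / 8 : ℝ) ^ j := one_le_pow₀ (by norm_num)
    have hqj2 : (9 / 8 : ℝ) ^ j ≤ (9 / 8 : ℝ) ^ J := pow_le_pow_right₀ (by norm_num) hjJ
    have hTj : T ≤ (9 / 8 : ℝ) ^ j * T := by nlinarith
    have hTj0 : 0 < (9 / 8 : ℝ) ^ j * T := by linarith
    rcases (Fj j).eq_empty_or_nonempty with h0 | ⟨n₀, hn₀⟩
    · rw [h0, Finset.card_empty, Nat.cast_zero]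
      positivity
    · have hle : (9 / 8 : ℝ) ^ j * T ≤ C₃ * T := by
        obtain ⟨h1, h2, -⟩ := Finset.mem_filter.1 hn₀
        obtain ⟨-, h4, -⟩ := hF n₀ h1
        have h5 := CellsC_hT_pos (hT2.trans hTj)
        have h6 : 0 ≤ B * hT ((9 / 8 : ℝ) ^ j * T) := mul_nonneg (by linarith) h5.le
        linarith
      have hc := hcells ((9 / 8 : ℝ) ^ j * T) (hTT.trans hTj) (η * T / ((9 / 8 : ℝ) ^ j * T)) G
        (by positivity) hG ?_ (Fj j) ?_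
      · refine hc.trans ?_
        have h1 : η * T / ((9 / 8 : ℝ) ^ j * T) ≤ η := by
          rw [div_le_iff₀ hTj0]
          exact mul_le_mul_of_nonneg_left hTj hη
        have h2 := CellsC_quot hT2 hqj1 hqj2 hTq
        have h3 := CellsC_hT_pos (hT2.trans hTj)
        refine mul_le_mul ?_ h2 (by positivity) (by positivity)
        linarith
      · rw [div_mul_cancel₀ _ hTj0.ne']
        refine (measure_mono ?_).trans hvol
        refine Set.sdiff_subset_sdiff_left (Set.Icc_subset_Icc hTj ?_)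
        linarith
      · intro n hn
        obtain ⟨h1, h2, h3⟩ := Finset.mem_filter.1 hn
        obtain ⟨-, -, h4⟩ := hF n h1
        refine ⟨h2, h3, ?_⟩
        rintro ⟨t, htG, ht1, ht2⟩
        refine h4 ⟨t, htG, ht1.trans ?_, ht2⟩
        exact mul_le_mul_of_nonneg_left (CellsC_hT_anti hT2 hTj) (by linarith)
  have h1 : (F.card : ℝ) ≤ ∑ j ∈ Finset.range (J + 1), ((Fj j).card : ℝ) := by
    have h2 := (Finset.card_le_card hcov).trans Finset.card_biUnion_le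
    exact_mod_cast h2
  refine (h1.trans (Finset.sum_le_sum hbd)).trans (le_of_eq ?_)
  rw [Finset.sum_const, Finset.card_range, nsmul_eq_mul]
  push_cast
  field_simp
  ring

end Pool.Agent.Lib.MP_ec260d_ntD
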