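import Mathlib
import Pool.Agent.Lib.MP_ec260d_ntB.IYC

/-!
# Interface YC: moments of the prime sums on `[T, C₂ T]`, in the form of exceptional sets (owner helper45)
-/

namespace Pool.Agent.Lib.MP_ec260d_ntD

open Complex Set Filter Topology MeasureTheory
open Pool.Agent.Lib.MP_ec260d_ntB hiding y_oscC y_flatC y_blockC y_incC y_absC y_parC

theorem y_oscC (δ W C₂ L ε : ℝ) (hδ : 0 < δ) (hδ1 : δ ≤ 1 / 100) (hW : 1 ≤ W) (hC₂ : 1 ≤ C₂) (hL : 0 ≤ L)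
    (hε : 0 < ε) : ∃ A T₀ : ℝ, 1 ≤ A ∧ 2 ≤ T₀ ∧ ∀ T : ℝ, T₀ ≤ T →
      volume {t : ℝ | t ∈ Icc T (C₂ * T) ∧ ∃ s : ℝ, |s - t| ≤ L * hT T ∧
        A < |YY δ W T s - YY δ W T t|} ≤ ENNReal.ofReal (ε * T) :=
  Pool.Agent.Lib.MP_ec260d_ntB.y_oscC C₂ δ W L ε hδ hδ1 hW hL hε

theorem y_flatC (δ δ' W C₂ L ε : ℝ) (hδ : 0 < δ) (hδ1 : δ ≤ 1 / 100) (hδ' : 0 < δ') (hδδ : δ' ≤ δ)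
    (hW : 1 ≤ W) (hC₂ : 1 ≤ C₂) (hL : 0 ≤ L) (hε : 0 < ε) :
    ∃ A T₀ : ℝ, 1 ≤ A ∧ 2 ≤ T₀ ∧ ∀ T : ℝ, T₀ ≤ T →
      volume {t : ℝ | t ∈ Icc T (C₂ * T) ∧ ∃ s : ℝ, |s - t| ≤ L * hT T ∧
        A < |YY δ W T s - ∑ j ∈ Finset.range (JJ T), YB δ' W T j s|} ≤ ENNReal.ofReal (ε * T) :=
  Pool.Agent.Lib.MP_ec260d_ntB.y_flatC C₂ δ δ' W L ε hδ hδ1 hδ' hδδ hW hL hε

theorem y_blockC (k : ℕ) (C₂ L ε : ℝ) (hC₂ : 1 ≤ C₂) (hL : 0 ≤ L) (hε : 0 < ε) :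
    ∃ δ₁ : ℝ, 0 < δ₁ ∧ ∀ δ : ℝ, 0 < δ → δ ≤ δ₁ → ∀ W : ℝ, 1 ≤ W → ∃ T₀ : ℝ, 2 ≤ T₀ ∧ ∀ T : ℝ, T₀ ≤ T →
      volume {t : ℝ | t ∈ Icc T (C₂ * T) ∧ ∃ s : ℝ, |s - t| ≤ L * hT T ∧
        ∃ j ∈ Finset.range (JJ T), (dd δ j : ℝ) / (100 * ((k : ℝ) + 1)) < |YB δ W T j s|} ≤
          ENNReal.ofReal (ε * T) :=
  Pool.Agent.Lib.MP_ec260d_ntB.y_blockC C₂ k L ε hL hε

theorem y_incC (δ W C C₂ ε : ℝ) (hδ : 0 < δ) (hδ1 : δ ≤ 1 / 100) (hW : 1 ≤ W) (hC : 0 ≤ C) (hC₂ : 1 ≤ C₂)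
    (hε : 0 < ε) : ∃ A T₀ : ℝ, 1 ≤ A ∧ 2 ≤ T₀ ∧ ∀ T : ℝ, T₀ ≤ T → ∀ u : ℝ, 0 ≤ u → u ≤ C →
      volume {t : ℝ | t ∈ Icc T (C₂ * T) ∧
        A * Real.sqrt (Real.log (2 + u * Real.log T)) < |YY δ W T (t + u) - YY δ W T t|} ≤
          ENNReal.ofReal (ε * T) :=
  Pool.Agent.Lib.MP_ec260d_ntB.y_incC C₂ δ W C ε hδ hδ1 hW hC hε

theorem y_absC (δ W C₂ ε : ℝ) (hδ : 0 < δ) (hδ1 : δ ≤ 1 / 100) (hW : 1 ≤ W) (hC₂ : 1 ≤ C₂) (hε : 0 < ε) :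
    ∃ A T₀ : ℝ, 1 ≤ A ∧ 3 ≤ T₀ ∧ ∀ T : ℝ, T₀ ≤ T →
      volume {t : ℝ | t ∈ Icc T (C₂ * T) ∧
        A * Real.sqrt (Real.log (Real.log T)) < |YY δ W T t|} ≤ ENNReal.ofReal (ε * T) := by
  obtain ⟨A, T₀, hA, hT, h⟩ := Pool.Agent.Lib.MP_ec260d_ntB.y_absC C₂ δ W ε hδ hδ1 hW hε
  exact ⟨A, max T₀ 3, hA, le_max_right _ _, fun T hT' => h T ((le_max_left _ _).trans hT')⟩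

theorem y_parC (δ W C₂ ε : ℝ) (hδ : 0 < δ) (hδ1 : δ ≤ 1 / 100) (hW : 1 ≤ W) (hC₂ : 1 ≤ C₂) (hε : 0 < ε) :
    ∃ A T₀ : ℝ, 1 ≤ A ∧ 2 ≤ T₀ ∧ ∀ T T' : ℝ, T₀ ≤ T → T ≤ T' → T' ≤ C₂ * T →
      volume {t : ℝ | t ∈ Icc T (C₂ * T) ∧ A < |YY δ W T' t - YY δ W T t|} ≤ ENNReal.ofReal (ε * T) := by
  obtain ⟨A, T₀, hA, hT, h⟩ := Pool.Agent.Lib.MP_ec260d_ntB.y_parC C₂ δ W ε hδ hδ1 hW hε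
  exact ⟨A, T₀, hA, hT, fun T T' h1 h2 h3 => h T h1 T' h2 h3⟩

end Pool.Agent.Lib.MP_ec260d_ntD
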