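import Mathlib
import Pool.Agent.Lib.MP_ec260d_ntB.IB
import Pool.Agent.Lib.MP_ec260d_ntD.I.IYC

/-!
# JOB I/OneC: `t_one` on `[T, C₂ T]` (about 250 lines)

Let `J` with `2^J ≥ C₂`, `T_j = 2^j T`, `j ≤ J`, `C₂' = 3 * 2^J`.  `ε₁ = min (ε/(4 (J + 1) 2^J)) (1/(16 * 2^J))`.  `t_one ε₁` gives `δ₁`, for `δ ≤ min δ₁ (1/100)` and `W ≥ W₀` constants `K, T₀` and, for `T ≥ T₀`, sets `G_j ⊆ [T_j, 3T_j]` with `volume (Icc T_j (3T_j) \ G_j) ≤ ε₁ T_j`, with `YY δ W T_j`.
`y_parC δ W C₂' ε₁` (with `T' = T_j`) gives `A`: `D_j = {t ∈ Icc T (C₂' T) : A < |YY δ W T_j t - YY δ W T t|}`, `volume D_j ≤ ε₁ T`; enlarge it to a measurable set `D'_j` of the same measure (`toMeasurable`).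
`G = Icc T (C₂ T) ∩ ⋃_j (G_j ∩ Icc T_j (2 T_j) \ D'_j)`.  The complement in `Icc T (C₂ T)` is contained in the union of the `Icc T_j (3T_j) \ G_j` and the `D'_j`: measure `≤ ∑ (ε₁ 2^j T + ε₁ T) ≤ ε T`.
Let `X(t) = NN t - LL t - YY δ W T t`, `X_j(t) = NN t - LL t - YY δ W T_j t`.  On `G_j`: `|X_j(t) - X_j(t')| ≤ K` (both orders).  For `j < J` the set `Icc (2T_j) (3T_j) ∩ G_j ∩ G_{j+1} \ (D'_j ∪ D'_{j+1})` is nonempty (measure `≥ T_j - 2 ε₁ T_{j+1} - 2 ε₁ T... > 0`, `2 T_j = T_{j+1}`): choose `s_j` in it.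
For `t₁ ∈ G_i`-part, `t₂ ∈ G_j`-part, `i ≤ j`: go from `t₁` to `s_i` in `G_i`, from `s_i` to `s_{i+1}` in `G_{i+1}`, ..., to `t₂`: `|X(t₁) - X(t₂)| ≤ (J + 1) (K + 2A)`.  (Prove by induction that for every `j ≤ J` and every `t` in the `j`-th part `|X(t) - X(s)| ≤ (j+1) (K + 2A)` for a fixed point `s` of the part `0`.)
-/

namespace Pool.Agent.Lib.MP_ec260d_ntD

open Complex Set Filter Topology MeasureTheory
open Pool.Agent.Lib.MP_ec260d_ntB

theorem one_C (ε C₂ : ℝ) (hε : 0 < ε) (hC₂ : 1 ≤ C₂) : ∃ δ₁ : ℝ, 0 < δ₁ ∧ ∀ δ : ℝ, 0 < δ → δ ≤ δ₁ →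
    ∃ W₀ : ℝ, 1 ≤ W₀ ∧ ∀ W : ℝ, W₀ ≤ W → ∃ K T₀ : ℝ, 0 < K ∧ 2 ≤ T₀ ∧ ∀ T : ℝ, T₀ ≤ T →
      ∃ G : Set ℝ, MeasurableSet G ∧ G ⊆ Icc T (C₂ * T) ∧
        volume (Icc T (C₂ * T) \ G) ≤ ENNReal.ofReal (ε * T) ∧
        ∀ t₁ ∈ G, ∀ t₂ ∈ G, t₁ ≤ t₂ →
          |NN t₂ - NN t₁ - (LL t₂ - LL t₁) - (YY δ W T t₂ - YY δ W T t₁)| ≤ K := by
  obtain ⟨J, hJ⟩ : ∃ J : ℕ, C₂ ≤ (2 : ℝ) ^ J := by
    obtain ⟨J, hJ⟩ := pow_unbounded_of_one_lt C₂ (by norm_num : (1 : ℝ) < 2)
    exact ⟨J, hJ.le⟩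
  set q : ℝ := (2 : ℝ) ^ J with hq
  have hq1 : 1 ≤ q := hC₂.trans hJ
  have hq0 : 0 < q := by linarith
  have hJ1 : (0 : ℝ) < (J : ℝ) + 1 := by positivity
  set ε₁ : ℝ := min (ε / (4 * ((J : ℝ) + 1) * q)) (1 / (16 * q)) with hε₁
  have hε₁0 : 0 < ε₁ := lt_min (by positivity) (by positivity)
  have hε₁a : ε₁ * (4 * ((J : ℝ) + 1) * q) ≤ ε := by
    have h1 : ε₁ ≤ ε / (4 * ((J : ℝ) + 1) * q) := min_le_left _ _
    rwa [le_div_iff₀ (by positivity)] at h1
  have hε₁b : ε₁ ≤ 1 / 16 := by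
    have h1 : ε₁ ≤ 1 / (16 * q) := min_le_right _ _
    have h2 : 1 / (16 * q) ≤ 1 / 16 := one_div_le_one_div_of_le (by norm_num) (by linarith)
    linarith
  obtain ⟨δ₁, hδ₁, H⟩ := t_one ε₁ hε₁0
  refine ⟨min δ₁ (1 / 100), lt_min hδ₁ (by norm_num), fun δ hδ hδm => ?_⟩
  obtain ⟨W₀, hW₀, H1⟩ := H δ hδ (hδm.trans (min_le_left _ _))
  refine ⟨W₀, hW₀, fun W hW => ?_⟩
  obtain ⟨K₀, Ta, hK₀, hTa, H2⟩ := H1 W hW
  obtain ⟨A, Tb, hA, hTb, H3⟩ := y_parC δ W (3 * q) ε₁ hδ (hδm.trans (min_le_right _ _))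
    (hW₀.trans hW) (by linarith) hε₁0
  set K₁ : ℝ := K₀ + 2 * A with hK₁
  have hK₁0 : 0 < K₁ := by rw [hK₁]; linarith
  refine ⟨((J : ℝ) + 1) * K₁, Ta + Tb, by positivity, by linarith, fun T hT => ?_⟩
  have hT0 : 0 < T := by linarith
  have hTj : ∀ j : ℕ, T ≤ (2 : ℝ) ^ j * T := fun j => by
    have h1 : (1 : ℝ) ≤ (2 : ℝ) ^ j := one_le_pow₀ (by norm_num)
    nlinarith
  have hTjq : ∀ j ≤ J, (2 : ℝ) ^ j * T ≤ q * T := fun j hj =>
    mul_le_mul_of_nonneg_right (pow_le_pow_right₀ (by norm_num) hj) hT0.le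
  have HG : ∀ j : ℕ, ∃ G : Set ℝ, MeasurableSet G ∧ G ⊆ Icc ((2 : ℝ) ^ j * T) (3 * ((2 : ℝ) ^ j * T)) ∧
        volume (Icc ((2 : ℝ) ^ j * T) (3 * ((2 : ℝ) ^ j * T)) \ G) ≤ ENNReal.ofReal (ε₁ * ((2 : ℝ) ^ j * T)) ∧
        ∀ t₁ ∈ G, ∀ t₂ ∈ G, t₁ ≤ t₂ →
          |NN t₂ - NN t₁ - (LL t₂ - LL t₁) - (YY δ W ((2 : ℝ) ^ j * T) t₂ - YY δ W ((2 : ℝ) ^ j * T) t₁)| ≤ K₀ :=
    fun j => H2 ((2 : ℝ) ^ j * T) (by linarith [hTj j])
  choose G hGm hGs hGv hGb using HG
  set D : ℕ → Set ℝ := fun j => toMeasurable volume {t : ℝ | t ∈ Icc T (3 * q * T) ∧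
    A < |YY δ W ((2 : ℝ) ^ j * T) t - YY δ W T t|} with hD
  have hDm : ∀ j, MeasurableSet (D j) := fun j => measurableSet_toMeasurable _ _
  have hDv : ∀ j ≤ J, volume (D j) ≤ ENNReal.ofReal (ε₁ * T) := by
    intro j hj
    have h1 : volume (D j) = volume {t : ℝ | t ∈ Icc T (3 * q * T) ∧
      A < |YY δ W ((2 : ℝ) ^ j * T) t - YY δ W T t|} := measure_toMeasurable _
    rw [h1]
    refine H3 T ((2 : ℝ) ^ j * T) (by linarith) (hTj j) ?_
    have h2 := hTjq j hj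
    have h3 : 0 < q * T := mul_pos hq0 hT0
    linarith
  have hDs : ∀ j t, t ∈ Icc T (3 * q * T) → t ∉ D j → |YY δ W ((2 : ℝ) ^ j * T) t - YY δ W T t| ≤ A := by
    intro j t ht htD
    by_contra hc
    push Not at hc
    exact htD (subset_toMeasurable _ _ ⟨ht, hc⟩)
  set Q : ℕ → Set ℝ := fun j => G j \ D j with hQ
  have hQm : ∀ j, MeasurableSet (Q j) := fun j => (hGm j).diff (hDm j)
  set X : ℝ → ℝ := fun t => NN t - LL t - YY δ W T t with hX
  have hQI : ∀ j ≤ J, ∀ t ∈ Q j, t ∈ Icc T (3 * q * T) := by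
    intro j hj t ht
    have h1 := hGs j ht.1
    have h2 := hTjq j hj
    exact ⟨(hTj j).trans h1.1, by linarith [h1.2]⟩
  have hloc' : ∀ j ≤ J, ∀ t ∈ Q j, ∀ t' ∈ Q j, t ≤ t' → |X t' - X t| ≤ K₁ := by
    intro j hj t ht t' ht' htt
    have h1 := hGb j t ht.1 t' ht'.1 htt
    have h2 := hDs j t (hQI j hj t ht) ht.2
    have h3 := hDs j t' (hQI j hj t' ht') ht'.2
    rw [abs_le] at h1 h2 h3 ⊢
    rw [hX, hK₁]
    constructor
    · simp only []
      linarith [h1.1, h2.1, h3.1, h2.2, h3.2]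
    · simp only []
      linarith [h1.2, h2.2, h3.2, h2.1, h3.1]
  have hloc : ∀ j ≤ J, ∀ t ∈ Q j, ∀ t' ∈ Q j, |X t' - X t| ≤ K₁ := by
    intro j hj t ht t' ht'
    rcases le_total t t' with h | h
    · exact hloc' j hj t ht t' ht' h
    · rw [abs_sub_comm]
      exact hloc' j hj t' ht' t ht h
  have hover : ∀ j, j + 1 ≤ J → (Q j ∩ Q (j + 1)).Nonempty := by
    intro j hj
    by_contra hne
    rw [Set.not_nonempty_iff_eq_empty] at hne
    set S : ℝ := (2 : ℝ) ^ j * T with hS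
    have hS0 : 0 < S := by positivity
    have hS1 : (2 : ℝ) ^ (j + 1) * T = 2 * S := by rw [hS, pow_succ]; ring
    have hTS : T ≤ S := hTj j
    have hsub : Icc (2 * S) (3 * S) ⊆ ((Icc S (3 * S) \ G j) ∪ D j) ∪
        ((Icc (2 * S) (3 * (2 * S)) \ G (j + 1)) ∪ D (j + 1)) := by
      intro t ht
      by_cases h1 : t ∈ Q j
      · have h2 : t ∉ Q (j + 1) := by
          intro h3
          have : t ∈ Q j ∩ Q (j + 1) := ⟨h1, h3⟩
          rw [hne] at this
          exact this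
        right
        by_cases h4 : t ∈ D (j + 1)
        · exact Or.inr h4
        · left
          refine ⟨⟨ht.1, by linarith [ht.2]⟩, fun h5 => h2 ⟨h5, h4⟩⟩
      · left
        by_cases h4 : t ∈ D j
        · exact Or.inr h4
        · left
          refine ⟨⟨by linarith [ht.1], ht.2⟩, fun h5 => h1 ⟨h5, h4⟩⟩
    have v1 := hGv j
    have v2 := hGv (j + 1)
    rw [hS1] at v2
    rw [← hS] at v1
    have v3 := hDv j (by omega)
    have v4 := hDv (j + 1) hj
    have hvol : volume (Icc (2 * S) (3 * S)) ≤ ENNReal.ofReal (5 * ε₁ * S) := by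
      calc volume (Icc (2 * S) (3 * S)) ≤ _ := measure_mono hsub
        _ ≤ (volume (Icc S (3 * S) \ G j) + volume (D j)) +
            (volume (Icc (2 * S) (3 * (2 * S)) \ G (j + 1)) + volume (D (j + 1))) := by
          refine (measure_union_le _ _).trans (add_le_add (measure_union_le _ _) (measure_union_le _ _))
        _ ≤ (ENNReal.ofReal (ε₁ * S) + ENNReal.ofReal (ε₁ * T)) +
            (ENNReal.ofReal (ε₁ * (2 * S)) + ENNReal.ofReal (ε₁ * T)) :=
          add_le_add (add_le_add v1 v3) (add_le_add v2 v4)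
        _ = ENNReal.ofReal ((ε₁ * S + ε₁ * T) + (ε₁ * (2 * S) + ε₁ * T)) := by
          rw [ENNReal.ofReal_add (by positivity) (by positivity), ENNReal.ofReal_add (by positivity)
            (by positivity), ENNReal.ofReal_add (by positivity) (by positivity)]
        _ ≤ ENNReal.ofReal (5 * ε₁ * S) := by
          apply ENNReal.ofReal_le_ofReal
          nlinarith
    rw [Real.volume_Icc, ENNReal.ofReal_le_ofReal_iff (by positivity)] at hvol
    nlinarith
  have hchain : ∀ j, j ≤ J → ∀ i ≤ j, ∀ t ∈ Q i, ∀ t' ∈ Q j, |X t' - X t| ≤ ((j : ℝ) + 1) * K₁ := by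
    intro j
    induction j with
    | zero =>
      intro h0 i hi t ht t' ht'
      have hi0 : i = 0 := by omega
      subst hi0
      have := hloc 0 h0 t ht t' ht'
      simpa using this
    | succ j ih =>
      intro hj i hi t ht t' ht'
      rcases Nat.lt_or_ge j i with hlt | hge
      · have hij : i = j + 1 := by omega
        subst hij
        have h1 := hloc (j + 1) hj t ht t' ht'
        push_cast
        have h2 : 0 ≤ ((j : ℝ) + 1) * K₁ := by positivity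
        linarith
      · obtain ⟨s, hs⟩ := hover j hj
        have h1 := ih (by omega) i hge t ht s hs.1
        have h2 := hloc (j + 1) hj s hs.2 t' ht'
        have h3 : |X t' - X t| ≤ |X t' - X s| + |X s - X t| := abs_sub_le _ _ _
        push_cast
        linarith
  refine ⟨Icc T (C₂ * T) ∩ ⋃ j ∈ Finset.range (J + 1), Q j, ?_, inter_subset_left, ?_, ?_⟩
  · exact measurableSet_Icc.inter (Finset.measurableSet_biUnion _ (fun j _ => hQm j))
  · have hsub : Icc T (C₂ * T) \ (Icc T (C₂ * T) ∩ ⋃ j ∈ Finset.range (J + 1), Q j) ⊆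
        ⋃ j ∈ Finset.range (J + 1), ((Icc ((2 : ℝ) ^ j * T) (3 * ((2 : ℝ) ^ j * T)) \ G j) ∪ D j) := by
      intro t ht
      have ht1 := ht.1
      have hex : ∃ j ≤ J, (2 : ℝ) ^ j * T ≤ t ∧ t ≤ 3 * ((2 : ℝ) ^ j * T) := by
        by_cases hall : ∃ j, j < J ∧ t < (2 : ℝ) ^ (j + 1) * T
        · classical
          have hf := Nat.find_spec hall
          refine ⟨Nat.find hall, hf.1.le, ?_, ?_⟩
          · rcases Nat.eq_zero_or_pos (Nat.find hall) with h0 | h0
            · rw [h0, pow_zero, one_mul]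
              exact ht1.1
            · by_contra hc
              push Not at hc
              have hm := Nat.find_min hall (m := Nat.find hall - 1) (by omega)
              apply hm
              refine ⟨by omega, ?_⟩
              rwa [Nat.sub_add_cancel h0]
          · have h1 := hf.2
            rw [pow_succ] at h1
            have h2 : 0 < (2 : ℝ) ^ (Nat.find hall) * T := by positivity
            nlinarith
        · push Not at hall
          refine ⟨J, le_rfl, ?_, ?_⟩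
          · rcases Nat.eq_zero_or_pos J with h0 | h0
            · rw [h0, pow_zero, one_mul]
              exact ht1.1
            · have := hall (J - 1) (by omega)
              rwa [Nat.sub_add_cancel h0] at this
          · have h1 : C₂ * T ≤ q * T := mul_le_mul_of_nonneg_right hJ hT0.le
            have h2 : 0 < q * T := mul_pos hq0 hT0
            rw [← hq]
            linarith [ht1.2]
      obtain ⟨j, hj, hj1, hj2⟩ := hex
      refine mem_biUnion (x := j) (Finset.mem_coe.2 (Finset.mem_range.2 (by omega))) ?_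
      by_cases h4 : t ∈ D j
      · exact Or.inr h4
      · left
        refine ⟨⟨hj1, hj2⟩, fun h5 => ?_⟩
        apply ht.2
        refine ⟨ht1, ?_⟩
        exact mem_biUnion (x := j) (Finset.mem_coe.2 (Finset.mem_range.2 (by omega))) ⟨h5, h4⟩
    calc volume (Icc T (C₂ * T) \ (Icc T (C₂ * T) ∩ ⋃ j ∈ Finset.range (J + 1), Q j))
        ≤ volume (⋃ j ∈ Finset.range (J + 1),
            ((Icc ((2 : ℝ) ^ j * T) (3 * ((2 : ℝ) ^ j * T)) \ G j) ∪ D j)) := measure_mono hsub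
      _ ≤ ∑ j ∈ Finset.range (J + 1),
            volume ((Icc ((2 : ℝ) ^ j * T) (3 * ((2 : ℝ) ^ j * T)) \ G j) ∪ D j) :=
          measure_biUnion_finset_le _ _
      _ ≤ ∑ j ∈ Finset.range (J + 1), ENNReal.ofReal (2 * ε₁ * q * T) := by
          refine Finset.sum_le_sum (fun j hj => ?_)
          have hj' : j ≤ J := by
            have := Finset.mem_range.1 hj
            omega
          refine (measure_union_le _ _).trans ((add_le_add (hGv j) (hDv j hj')).trans ?_)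
          rw [← ENNReal.ofReal_add (by positivity) (by positivity)]
          apply ENNReal.ofReal_le_ofReal
          have h1 := mul_le_mul_of_nonneg_left (hTjq j hj') hε₁0.le
          have h2 : T ≤ q * T := by nlinarith
          have h3 := mul_le_mul_of_nonneg_left h2 hε₁0.le
          linarith
      _ = ENNReal.ofReal (((J : ℝ) + 1) * (2 * ε₁ * q * T)) := by
          rw [Finset.sum_const, Finset.card_range, nsmul_eq_mul,
            ENNReal.ofReal_mul (show (0 : ℝ) ≤ (J : ℝ) + 1 by positivity),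
            show ((J : ℝ) + 1) = ((J + 1 : ℕ) : ℝ) by push_cast; ring, ENNReal.ofReal_natCast]
      _ ≤ ENNReal.ofReal (ε * T) := by
          apply ENNReal.ofReal_le_ofReal
          have h1 : ε₁ * (4 * ((J : ℝ) + 1) * q) * T ≤ ε * T := mul_le_mul_of_nonneg_right hε₁a hT0.le
          have h2 : 0 ≤ ε₁ * (((J : ℝ) + 1) * q) * T := by positivity
          nlinarith
  · intro t₁ ht₁ t₂ ht₂ _
    obtain ⟨i, hi, hti⟩ := mem_iUnion₂.1 ht₁.2
    obtain ⟨j, hj, htj⟩ := mem_iUnion₂.1 ht₂.2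
    have hi' : i ≤ J := by
      have := Finset.mem_range.1 hi
      omega
    have hj' : j ≤ J := by
      have := Finset.mem_range.1 hj
      omega
    have hfin : |X t₂ - X t₁| ≤ ((J : ℝ) + 1) * K₁ := by
      rcases le_total i j with h | h
      · refine (hchain j hj' i h t₁ hti t₂ htj).trans ?_
        have : (j : ℝ) ≤ J := by exact_mod_cast hj'
        exact mul_le_mul_of_nonneg_right (by linarith) hK₁0.le
      · rw [abs_sub_comm]
        refine (hchain i hi' j h t₂ htj t₁ hti).trans ?_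
        have : (i : ℝ) ≤ J := by exact_mod_cast hi'
        exact mul_le_mul_of_nonneg_right (by linarith) hK₁0.le
    have he : NN t₂ - NN t₁ - (LL t₂ - LL t₁) - (YY δ W T t₂ - YY δ W T t₁) = X t₂ - X t₁ := by
      rw [hX]
      ring
    rw [he]
    exact hfin

end Pool.Agent.Lib.MP_ec260d_ntD
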